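import Pool.Agent.U630.IS.Dig

/-!
# The base automaton and the groups of the automata
-/

set_option autoImplicit false

namespace Pool.Agent.U630.IS

open Pool.Agent.N765.HY.SL2 (gens gens_inj)

variable (k : ℕ)

/-- the classes -/
abbrev CC : Type := Fin (k + 1) ⊕ (Fin (k + 1) × Bool)

/-- the linear part of a class -/
noncomputable def lcc : CC k → SL2 × SL2
  | Sum.inl i => (gens k i, gens k i)
  | Sum.inr l => (1, if l.2 then gens k l.1 else (gens k l.1)⁻¹)

/-- bounded vectors -/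
def box (K : ℤ) : Set VV := {v | (∀ i, |v.1 i| ≤ K) ∧ ∀ i, |v.2 i| ≤ K}

theorem box_finite (K : ℤ) : (box K).Finite := by
  refine ((Set.finite_Icc (fun _ => -K : V2) (fun _ => K)).prod
    (Set.finite_Icc (fun _ => -K : V2) (fun _ => K))).subset ?_
  intro v hv
  refine ⟨⟨fun i => ?_, fun i => ?_⟩, ⟨fun i => ?_, fun i => ?_⟩⟩
  · exact (abs_le.1 (hv.1 i)).1
  · exact (abs_le.1 (hv.1 i)).2
  · exact (abs_le.1 (hv.2 i)).1
  · exact (abs_le.1 (hv.2 i)).2

theorem exists_bound : ∃ K : ℤ, 1 ≤ K ∧ ∀ (j : CC k) (x : Fin 16),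
    ((mv (lcc k j).1 (rep x).1, mv (lcc k j).2 (rep x).2) : VV) ∈ box K := by
  have h1 := Set.finite_range fun p : CC k × Fin 16 × Fin 2 =>
    |mv (lcc k p.1).1 (rep p.2.1).1 p.2.2|
  have h2 := Set.finite_range fun p : CC k × Fin 16 × Fin 2 =>
    |mv (lcc k p.1).2 (rep p.2.1).2 p.2.2|
  obtain ⟨K1, hK1⟩ := h1.bddAbove
  obtain ⟨K2, hK2⟩ := h2.bddAbove
  refine ⟨max 1 (max K1 K2), le_max_left _ _, fun j x => ⟨fun i => ?_, fun i => ?_⟩⟩
  · exact (hK1 ⟨(j, x, i), rfl⟩).trans ((le_max_left _ _).trans (le_max_right _ _))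
  · exact (hK2 ⟨(j, x, i), rfl⟩).trans ((le_max_right _ _).trans (le_max_right _ _))

theorem half_box {K a b : ℤ} (ha : |a| ≤ K) (hb : |b| ≤ K) : |(a + b) / 2| ≤ K := by
  rw [abs_le] at *
  omega

theorem exists_base : ∃ (q c : ℕ) (aff : Fin q → HH) (ns : Fin q → Fin 16 → Fin q)
    (cl : Fin q → Fin c) (lc : Fin c → SL2 × SL2) (D : Fin (k + 1) → Fin c)
    (E : Fin (k + 1) × Bool → Fin c),
    (∀ s x, aff (ns s x) = sec (aff s) x) ∧ (∀ s x, cl (ns s x) = cl s) ∧
    (∀ s, lin2 (aff s) = lc (cl s)) ∧ (∀ i, lc (D i) = (gens k i, gens k i)) ∧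
    (∀ l, lc (E l) = (1, if l.2 then gens k l.1 else (gens k l.1)⁻¹)) ∧
    (∀ j : Fin c, ∀ v ∈ box 1, ∃ s, cl s = j ∧ ((aff s).1.tr, (aff s).2.tr) = v) := by
  obtain ⟨K, hK, hb⟩ := exists_bound k
  have hfin : Finite (box K) := (box_finite K).to_subtype
  have hfin2 : Finite (CC k × box K) := inferInstance
  let eQ : CC k × box K ≃ Fin (Nat.card (CC k × box K)) := Finite.equivFin _
  let eC : CC k ≃ Fin (Nat.card (CC k)) := Finite.equivFin _
  let af : CC k × box K → HH := fun s =>
    (⟨(lcc k s.1).1, s.2.1.1⟩, ⟨(lcc k s.1).2, s.2.1.2⟩)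
  have hstep : ∀ (s : CC k × box K) (x : Fin 16), half (app2 (af s) (rep x)) ∈ box K := by
    intro s x
    have h1 := hb s.1 x
    have h2 := s.2.2
    refine ⟨fun i => ?_, fun i => ?_⟩
    · exact half_box (h1.1 i) (h2.1 i)
    · exact half_box (h1.2 i) (h2.2 i)
  refine ⟨_, _, fun s => af (eQ.symm s), fun s x => eQ ((eQ.symm s).1,
    ⟨half (app2 (af (eQ.symm s)) (rep x)), hstep _ x⟩), fun s => eC (eQ.symm s).1,
    fun j => lcc k (eC.symm j), fun i => eC (Sum.inl i), fun l => eC (Sum.inr l),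
    ?_, ?_, ?_, ?_, ?_, ?_⟩
  · intro s x
    simp only [Equiv.symm_apply_apply]
    rfl
  · intro s x
    simp only [Equiv.symm_apply_apply]
  · intro s
    simp only [Equiv.symm_apply_apply]
    rfl
  · intro i
    simp only [Equiv.symm_apply_apply]
    rfl
  · intro l
    simp only [Equiv.symm_apply_apply]
    rfl
  · intro j v hv
    refine ⟨eQ (eC.symm j, ⟨v, fun i => (hv.1 i).trans hK, fun i => (hv.2 i).trans hK⟩), ?_, ?_⟩
    · simp only [Equiv.symm_apply_apply, Equiv.apply_symm_apply]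
    · simp only [Equiv.symm_apply_apply]
      rfl

section Closure

variable {q c : ℕ} (aff : Fin q → HH) (cl : Fin q → Fin c) (lc : Fin c → SL2 × SL2)
  (D : Fin (k + 1) → Fin c) (E : Fin (k + 1) × Bool → Fin c)

/-- the shapes for a list of relators -/
def shapes (R : List (List (Fin (k + 1) × Bool))) : List (List (Fin c)) :=
  ((List.finRange (k + 1)).map fun i => [D i]) ++ R.map fun r => r.map E

theorem primrec_shapes : Primrec (shapes k D E) := by
  unfold shapes
  refine Primrec.list_append.comp (Primrec.const _) (Primrec.list_map Primrec.id ?_)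
  exact Primrec.list_map Primrec.snd ((Primrec.dom_finite E).comp Primrec.snd)

variable (hlin : ∀ s, lin2 (aff s) = lc (cl s)) (hD : ∀ i, lc (D i) = (gens k i, gens k i))
  (hE : ∀ l, lc (E l) = (1, if l.2 then gens k l.1 else (gens k l.1)⁻¹))
  (hbox : ∀ j : Fin c, ∀ v ∈ box 1, ∃ s, cl s = j ∧ ((aff s).1.tr, (aff s).2.tr) = v)

/-- the group of pairs of affine maps of the automaton -/
def HR (R : List (List (Fin (k + 1) × Bool))) : Subgroup HH :=
  Subgroup.closure (Set.range fun w : {w // w ∈ allStates cl (shapes k D E R)} =>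
    (w.1.map aff).prod)

include hlin in
theorem lin2_prod (w : List (Fin q)) : lin2 (w.map aff).prod = ((w.map cl).map lc).prod := by
  rw [map_list_prod, List.map_map, List.map_map]
  congr 1
  apply List.map_congr_left
  intro s _
  exact hlin s

include hE in
theorem prod_E (r : List (Fin (k + 1) × Bool)) :
    ((r.map E).map lc).prod = (1, rho k (FreeGroup.mk r)) := by
  induction r with
  | nil =>
    change (1 : SL2 × SL2) = (1, rho k 1)
    rw [map_one]
    rfl
  | cons l r ih =>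
    have h1 : (FreeGroup.mk (l :: r) : FreeGroup (Fin (k + 1))) =
        FreeGroup.mk [l] * FreeGroup.mk r := by simp
    rw [List.map_cons, List.map_cons, List.prod_cons, ih, h1, map_mul, hE]
    apply Prod.ext
    · change (1 : SL2) * 1 = 1
      rw [mul_one]
    · change (if l.2 then gens k l.1 else (gens k l.1)⁻¹) * _ = _
      congr 1
      unfold rho
      rw [FreeGroup.lift_mk]
      obtain ⟨i, b⟩ := l
      cases b <;> simp

/-- the pair of translations -/
def tl (v : VV) : HH := (⟨1, v.1⟩, ⟨1, v.2⟩)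

theorem tl_add (v w : VV) : tl (v + w) = tl v * tl w := by
  apply Prod.ext
  · apply Af.ext
    · change (1 : SL2) = 1 * 1
      rw [mul_one]
    · change v.1 + w.1 = v.1 + mv 1 w.1
      rw [mv_one]
  · apply Af.ext
    · change (1 : SL2) = 1 * 1
      rw [mul_one]
    · change v.2 + w.2 = v.2 + mv 1 w.2
      rw [mv_one]

theorem tl_zero : tl 0 = 1 := rfl

theorem tl_neg (v : VV) : tl (-v) = (tl v)⁻¹ := by
  rw [eq_inv_iff_mul_eq_one, ← tl_add, neg_add_cancel, tl_zero]

/-- the translations in a subgroup -/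
def trs (H : Subgroup HH) : AddSubgroup VV where
  carrier := {v | tl v ∈ H}
  add_mem' := by
    intro a b ha hb
    change tl (a + b) ∈ H
    rw [tl_add]
    exact H.mul_mem ha hb
  zero_mem' := by
    change tl 0 ∈ H
    rw [tl_zero]
    exact H.one_mem
  neg_mem' := by
    intro a ha
    change tl (-a) ∈ H
    rw [tl_neg]
    exact H.inv_mem ha

theorem tl_sub {a b : HH} (h : lin2 a = lin2 b) :
    tl (a.1.tr - b.1.tr, a.2.tr - b.2.tr) = a * b⁻¹ := by
  rw [eq_mul_inv_iff_mul_eq]
  have h1 : a.1.lin = b.1.lin := congrArg Prod.fst h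
  have h2 : a.2.lin = b.2.lin := congrArg Prod.snd h
  apply Prod.ext
  · apply Af.ext
    · change 1 * b.1.lin = a.1.lin
      rw [one_mul, h1]
    · change (a.1.tr - b.1.tr) + mv 1 b.1.tr = a.1.tr
      rw [mv_one, sub_add_cancel]
  · apply Af.ext
    · change 1 * b.2.lin = a.2.lin
      rw [one_mul, h2]
    · change (a.2.tr - b.2.tr) + mv 1 b.2.tr = a.2.tr
      rw [mv_one, sub_add_cancel]

include hlin hbox in
theorem box_mem (R : List (List (Fin (k + 1) × Bool))) (v : VV) (hv : v ∈ box 1) :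
    v ∈ trs (HR k aff cl D E R) := by
  obtain ⟨s, hs, hs'⟩ := hbox (D 0) v hv
  obtain ⟨t, ht, ht'⟩ := hbox (D 0) 0 ⟨fun i => by simp, fun i => by simp⟩
  have hm : ∀ u : Fin q, cl u = D 0 → aff u ∈ HR k aff cl D E R := by
    intro u hu
    refine Subgroup.subset_closure ⟨⟨[u], ?_⟩, by simp⟩
    rw [mem_allStates]
    refine List.mem_append_left _ (List.mem_map.2 ⟨0, List.mem_finRange _, ?_⟩)
    rw [List.map_singleton, hu]
  have h1 : lin2 (aff s) = lin2 (aff t) := by rw [hlin, hlin, hs, ht]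
  have h2 := tl_sub h1
  change tl v ∈ HR k aff cl D E R
  have h3 : ((aff s).1.tr - (aff t).1.tr, (aff s).2.tr - (aff t).2.tr) = v := by
    have e1 := congrArg Prod.fst hs'
    have e2 := congrArg Prod.snd hs'
    have e3 := congrArg Prod.fst ht'
    have e4 := congrArg Prod.snd ht'
    simp only [Prod.fst_zero, Prod.snd_zero] at e1 e2 e3 e4
    rw [e1, e2, e3, e4, sub_zero, sub_zero]
  rw [h3] at h2
  rw [h2]
  exact Subgroup.mul_mem _ (hm s hs) (Subgroup.inv_mem _ (hm t ht))

theorem span_box (T : AddSubgroup VV) (h : ∀ v ∈ box 1, v ∈ T) (v : VV) : v ∈ T := by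
  have e : v = v.1 0 • ((![1, 0], 0) : VV) + v.1 1 • ((![0, 1], 0) : VV) +
      v.2 0 • ((0, ![1, 0]) : VV) + v.2 1 • ((0, ![0, 1]) : VV) := by
    apply Prod.ext
    · funext i
      fin_cases i <;> simp
    · funext i
      fin_cases i <;> simp
  rw [e]
  refine T.add_mem (T.add_mem (T.add_mem (T.zsmul_mem (h _ ?_) _) (T.zsmul_mem (h _ ?_) _))
    (T.zsmul_mem (h _ ?_) _)) (T.zsmul_mem (h _ ?_) _)
  all_goals
    refine ⟨fun i => ?_, fun i => ?_⟩ <;> fin_cases i <;> simp

include hlin hD hE hbox in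
theorem HR_eq (R : List (List (Fin (k + 1) × Bool))) :
    HR k aff cl D E R = (DD k R).comap lin2 := by
  apply le_antisymm
  · unfold HR
    rw [Subgroup.closure_le]
    rintro _ ⟨⟨w, hw⟩, rfl⟩
    change lin2 (w.map aff).prod ∈ DD k R
    rw [lin2_prod aff cl lc hlin]
    rw [mem_allStates] at hw
    rcases List.mem_append.1 hw with h | h
    · obtain ⟨i, _, hi⟩ := List.mem_map.1 h
      rw [← hi, List.map_singleton, List.prod_singleton, hD]
      exact Subgroup.subset_closure (Or.inl ⟨i, rfl⟩)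
    · obtain ⟨r, hr, hr'⟩ := List.mem_map.1 h
      rw [← hr', prod_E k lc E hE]
      exact Subgroup.subset_closure (Or.inr ⟨r, hr, rfl⟩)
  · have hlift : ∀ σ : List (Fin c), ∃ w : List (Fin q), w.map cl = σ := by
      intro σ
      induction σ with
      | nil => exact ⟨[], rfl⟩
      | cons j σ ih =>
        obtain ⟨w, hw⟩ := ih
        obtain ⟨s, hs, _⟩ := hbox j 0 ⟨fun i => by simp, fun i => by simp⟩
        exact ⟨s :: w, by rw [List.map_cons, hs, hw]⟩
    have hgen : ∀ σ ∈ shapes k D E R, (σ.map lc).prod ∈ (HR k aff cl D E R).map lin2 := by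
      intro σ hσ
      obtain ⟨w, hw⟩ := hlift σ
      refine ⟨(w.map aff).prod, Subgroup.subset_closure ⟨⟨w, ?_⟩, rfl⟩, ?_⟩
      · rw [mem_allStates, hw]
        exact hσ
      · rw [lin2_prod aff cl lc hlin, hw]
    have hle : DD k R ≤ (HR k aff cl D E R).map lin2 := by
      unfold DD
      rw [Subgroup.closure_le]
      rintro _ (⟨i, rfl⟩ | ⟨r, hr, rfl⟩)
      · have h1 := hgen [D i] (List.mem_append_left _ (List.mem_map.2
          ⟨i, List.mem_finRange _, rfl⟩))
        rw [List.map_singleton, List.prod_singleton, hD] at h1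
        exact h1
      · have h1 := hgen (r.map E) (List.mem_append_right _ (List.mem_map.2 ⟨r, hr, rfl⟩))
        rw [prod_E k lc E hE] at h1
        exact h1
    intro x hx
    obtain ⟨y, hy, hyx⟩ := hle hx
    have h1 := tl_sub hyx.symm
    have h2 : tl (x.1.tr - y.1.tr, x.2.tr - y.2.tr) ∈ HR k aff cl D E R :=
      span_box (trs (HR k aff cl D E R)) (box_mem k aff cl lc D E hlin hbox R) _
    rw [h1] at h2
    have h3 := Subgroup.mul_mem _ h2 hy
    rwa [inv_mul_cancel_right] at h3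

end Closure

end Pool.Agent.U630.IS
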