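import Pool.Agent.U630.IS.Tab

/-!
# The table of a list of shapes is computable
-/

set_option autoImplicit false

namespace Pool.Agent.U630.IS

variable {n q c : ℕ} (ns : Fin q → Fin n → Fin q) (ot : Fin q → Fin n → Fin n) (cl : Fin q → Fin c)

theorem primrec_expand : Primrec (expand cl) := by
  unfold expand
  refine Primrec.list_foldr (f := fun σ : List (Fin c) => σ) (g := fun _ => ([[]] : List (List (Fin q))))
    (h := fun _ p => p.2.flatMap fun w => (fib cl p.1).map fun s => s :: w) Primrec.id
    (Primrec.const _) ?_
  refine Primrec.list_flatMap (Primrec.snd.comp Primrec.snd) ?_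
  refine Primrec.list_map ((Primrec.dom_finite (fib cl)).comp
    (Primrec.fst.comp (Primrec.snd.comp Primrec.fst))) ?_
  exact Primrec.list_cons.comp Primrec.snd (Primrec.snd.comp Primrec.fst)

theorem primrec_allStates : Primrec (allStates cl) := by
  unfold allStates
  exact Primrec.list_flatMap Primrec.id ((primrec_expand cl).comp Primrec.snd)

theorem primrec_wstep : Primrec₂ (wstep ns ot) := by
  unfold wstep
  have h := Primrec.list_foldr (f := fun p : List (Fin q) × Fin n => p.1)
    (g := fun p : List (Fin q) × Fin n => (([], p.2) : List (Fin q) × Fin n))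
    (h := fun _ p => (ns p.1 p.2.2 :: p.2.1, ot p.1 p.2.2)) Primrec.fst
    (Primrec.pair (Primrec.const _) Primrec.snd) (by
      have e1 : Primrec fun p : Fin q × Fin n => ns p.1 p.2 := Primrec.dom_finite _
      have e2 : Primrec fun p : Fin q × Fin n => ot p.1 p.2 := Primrec.dom_finite _
      have e3 : Primrec fun a : (List (Fin q) × Fin n) × Fin q × List (Fin q) × Fin n =>
          ((a.2.1, a.2.2.2) : Fin q × Fin n) :=
        Primrec.pair (Primrec.fst.comp Primrec.snd)
          (Primrec.snd.comp (Primrec.snd.comp Primrec.snd))
      refine Primrec.pair ?_ (e2.comp e3)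
      exact Primrec.list_cons.comp (e1.comp e3) (Primrec.fst.comp (Primrec.snd.comp Primrec.snd)))
  exact h

theorem primrec_table : Primrec (table ns ot cl) := by
  unfold table
  refine Primrec.pair (Primrec.const _) ?_
  refine Primrec.list_map (primrec_allStates cl) ?_
  refine Primrec.list_map (Primrec.const _) ?_
  have e1 : Primrec fun a : (List (List (Fin c)) × List (Fin q)) × Fin n =>
      wstep ns ot a.1.2 a.2 :=
    (primrec_wstep ns ot).comp (Primrec.snd.comp Primrec.fst) Primrec.snd
  refine Primrec.pair ?_ ((Primrec.dom_finite (fun x : Fin n => (x : ℕ))).comp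
    (Primrec.snd.comp e1))
  have e2 := Primrec.list_idxOf.comp (Primrec.fst.comp e1)
    ((primrec_allStates cl).comp (Primrec.fst.comp Primrec.fst))
  have e3 : (List.instBEq : BEq (List (Fin q))) = instBEqOfDecidableEq :=
    lawful_beq_subsingleton _ _
  rw [e3]
  exact e2

end Pool.Agent.U630.IS
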