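import Mathlib

/-!
# Finite invertible automata given by their tables, and the groups they generate
-/

set_option autoImplicit false

namespace Pool.Agent.U630.IS

/-- The tables of a finite automaton.  `A.1` is the number of letters; the letters are the numbers
`0, ..., A.1 - 1`.  `A.2` has one row for every state; the states are the numbers
`0, ..., A.2.length - 1`.  The entry number `x` of the row number `s` is the pair
`(τ(s, x), λ(s, x))`. -/
abbrev Table : Type := ℕ × List (List (ℕ × ℕ))

/-- The transition map `τ`. -/
def tau (A : Table) (s x : ℕ) : ℕ := ((A.2.getD s []).getD x (0, 0)).1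

/-- The output map `λ`. -/
def lam (A : Table) (s x : ℕ) : ℕ := ((A.2.getD s []).getD x (0, 0)).2

/-- `A` is the table of a finite invertible automaton over an alphabet with at least two letters:
all rows have one entry for every letter, the transition map takes values in the set of states and,
for every state `s`, the map `λ(s, ·)` is a permutation of the alphabet. -/
structure Valid (A : Table) : Prop where
  two_le : 2 ≤ A.1
  rows : ∀ row ∈ A.2, row.length = A.1
  tau_lt : ∀ s < A.2.length, ∀ x < A.1, tau A s x < A.2.length
  lam_bij : ∀ s < A.2.length, Set.BijOn (lam A s) (Set.Iio A.1) (Set.Iio A.1)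

/-- The action of the state `s` on words: `s(ε) = ε` and `s(x w) = λ(s, x) t(w)`, where
`t = τ(s, x)`. -/
def act (A : Table) : ℕ → List ℕ → List ℕ
  | _, [] => []
  | s, x :: w => lam A s x :: act A (tau A s x) w

/-- `G(A)`: the group generated by all states, as a group of permutations of the set of the finite
words over the alphabet `{0, ..., A.1 - 1}` (the vertices of the rooted tree). -/
def G (A : Table) : Subgroup (Equiv.Perm (List (Fin A.1))) :=
  Subgroup.closure {g | ∃ s < A.2.length, ∀ w : List (Fin A.1),
    (g w).map Fin.val = act A s (w.map Fin.val)}

end Pool.Agent.U630.IS
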