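import Pool.Agent.U630.IS.Defs

/-!
# The automaton of a list of shapes
-/

set_option autoImplicit false

namespace Pool.Agent.U630.IS

section Shapes

variable {n q c : ℕ} (ns : Fin q → Fin n → Fin q) (ot : Fin q → Fin n → Fin n) (cl : Fin q → Fin c)

/-- the states of class `k` -/
def fib (k : Fin c) : List (Fin q) := (List.finRange q).filter fun s => cl s = k

theorem mem_fib (k : Fin c) (s : Fin q) : s ∈ fib cl k ↔ cl s = k := by
  simp [fib]

/-- all words of states with a given word of classes -/
def expand (σ : List (Fin c)) : List (List (Fin q)) :=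
  σ.foldr (fun k acc => acc.flatMap fun w => (fib cl k).map fun s => s :: w) [[]]

theorem mem_expand (σ : List (Fin c)) (w : List (Fin q)) :
    w ∈ expand cl σ ↔ w.map cl = σ := by
  induction σ generalizing w with
  | nil => simp [expand]
  | cons k σ ih =>
    have h1 : expand cl (k :: σ) = (expand cl σ).flatMap fun w => (fib cl k).map fun s => s :: w :=
      rfl
    rw [h1, List.mem_flatMap]
    constructor
    · rintro ⟨u, hu, hw⟩
      rw [List.mem_map] at hw
      obtain ⟨s, hs, rfl⟩ := hw
      rw [List.map_cons, (ih u).1 hu, (mem_fib cl k s).1 hs]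
    · intro h
      cases w with
      | nil => simp at h
      | cons s u =>
        rw [List.map_cons, List.cons.injEq] at h
        exact ⟨u, (ih u).2 h.2, List.mem_map.2 ⟨s, (mem_fib cl k s).2 h.1, rfl⟩⟩

/-- the states of the automaton of a list of shapes -/
def allStates (L : List (List (Fin c))) : List (List (Fin q)) := L.flatMap (expand cl)

theorem mem_allStates (L : List (List (Fin c))) (w : List (Fin q)) :
    w ∈ allStates cl L ↔ w.map cl ∈ L := by
  unfold allStates
  rw [List.mem_flatMap]
  constructor
  · rintro ⟨σ, hσ, hw⟩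
    rw [(mem_expand cl σ w).1 hw]
    exact hσ
  · intro h
    exact ⟨_, h, (mem_expand cl _ w).2 rfl⟩

/-- one step of a word of states -/
def wstep (w : List (Fin q)) (x : Fin n) : List (Fin q) × Fin n :=
  w.foldr (fun s p => (ns s p.2 :: p.1, ot s p.2)) ([], x)

theorem wstep_nil (x : Fin n) : wstep ns ot [] x = ([], x) := rfl

theorem wstep_cons (s : Fin q) (w : List (Fin q)) (x : Fin n) :
    wstep ns ot (s :: w) x =
      (ns s (wstep ns ot w x).2 :: (wstep ns ot w x).1, ot s (wstep ns ot w x).2) := rfl

theorem map_wstep (hcl : ∀ s x, cl (ns s x) = cl s) (w : List (Fin q)) (x : Fin n) :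
    (wstep ns ot w x).1.map cl = w.map cl := by
  induction w with
  | nil => rfl
  | cons s w ih => rw [wstep_cons, List.map_cons, List.map_cons, ih, hcl]

theorem wstep_bij (hot : ∀ s, Function.Bijective (ot s)) (w : List (Fin q)) :
    Function.Bijective fun x => (wstep ns ot w x).2 := by
  induction w with
  | nil => exact Function.bijective_id
  | cons s w ih => exact (hot s).comp ih

/-- the table of the automaton of a list of shapes -/
def table (L : List (List (Fin c))) : Table :=
  (n, (allStates cl L).map fun w => (List.finRange n).map fun x =>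
    ((allStates cl L).idxOf (wstep ns ot w x).1, ((wstep ns ot w x).2 : ℕ)))

theorem table_len (L : List (List (Fin c))) :
    (table ns ot cl L).2.length = (allStates cl L).length := by
  simp [table]

theorem table_entry (L : List (List (Fin c))) (j : ℕ) (hj : j < (allStates cl L).length)
    (x : Fin n) : ((table ns ot cl L).2.getD j []).getD (x : ℕ) (0, 0) =
      ((allStates cl L).idxOf (wstep ns ot (allStates cl L)[j] x).1,
        ((wstep ns ot (allStates cl L)[j] x).2 : ℕ)) := by
  have h1 : (table ns ot cl L).2.getD j [] = (List.finRange n).map fun x =>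
      ((allStates cl L).idxOf (wstep ns ot (allStates cl L)[j] x).1,
        ((wstep ns ot (allStates cl L)[j] x).2 : ℕ)) := by
    rw [List.getD_eq_getElem _ _ (by simpa [table] using hj)]
    simp [table]
  rw [h1, List.getD_eq_getElem _ _ (by simp)]
  simp

theorem table_tau (L : List (List (Fin c))) (j : ℕ) (hj : j < (allStates cl L).length)
    (x : Fin n) : tau (table ns ot cl L) j x =
      (allStates cl L).idxOf (wstep ns ot (allStates cl L)[j] x).1 := by
  unfold tau
  rw [table_entry ns ot cl L j hj x]

theorem table_lam (L : List (List (Fin c))) (j : ℕ) (hj : j < (allStates cl L).length)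
    (x : Fin n) : lam (table ns ot cl L) j x = ((wstep ns ot (allStates cl L)[j] x).2 : ℕ) := by
  unfold lam
  rw [table_entry ns ot cl L j hj x]

variable (hcl : ∀ s x, cl (ns s x) = cl s) (hot : ∀ s, Function.Bijective (ot s))

include hcl in
theorem wstep_mem (L : List (List (Fin c))) (w : List (Fin q)) (hw : w ∈ allStates cl L)
    (x : Fin n) : (wstep ns ot w x).1 ∈ allStates cl L := by
  rw [mem_allStates] at hw ⊢
  rwa [map_wstep ns ot cl hcl]

include hcl hot in
theorem table_valid (hn : 2 ≤ n) (L : List (List (Fin c))) : Valid (table ns ot cl L) where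
  two_le := hn
  rows := by
    intro row hrow
    simp only [table, List.mem_map] at hrow
    obtain ⟨w, _, rfl⟩ := hrow
    simp [table]
  tau_lt := by
    intro s hs x hx
    rw [table_len] at hs ⊢
    have hx' : x < n := hx
    rw [show x = ((⟨x, hx'⟩ : Fin n) : ℕ) from rfl, table_tau ns ot cl L s hs]
    exact List.idxOf_lt_length_iff.2 (wstep_mem ns ot cl hcl L _ (List.getElem_mem _) _)
  lam_bij := by
    intro s hs
    rw [table_len] at hs
    have hb := wstep_bij ns ot hot ((allStates cl L)[s])
    refine ⟨?_, ?_, ?_⟩
    · intro x hx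
      have hx' : x < n := hx
      rw [show x = ((⟨x, hx'⟩ : Fin n) : ℕ) from rfl, table_lam ns ot cl L s hs]
      exact Fin.is_lt _
    · intro x hx y hy hxy
      have hx' : x < n := hx
      have hy' : y < n := hy
      rw [show x = ((⟨x, hx'⟩ : Fin n) : ℕ) from rfl,
        show y = ((⟨y, hy'⟩ : Fin n) : ℕ) from rfl, table_lam ns ot cl L s hs,
        table_lam ns ot cl L s hs] at hxy
      have := hb.1 (Fin.ext hxy)
      simpa using this
    · intro y hy
      have hy' : y < n := hy
      obtain ⟨x, hx⟩ := hb.2 ⟨y, hy'⟩
      refine ⟨x, x.2, ?_⟩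
      rw [table_lam ns ot cl L s hs]
      exact congrArg Fin.val hx

/-- the action of a base state on words -/
def bact : Fin q → List (Fin n) → List (Fin n)
  | _, [] => []
  | s, x :: w => ot s x :: bact (ns s x) w

include hot in
theorem bact_inj (s : Fin q) (u v : List (Fin n)) (h : bact ns ot s u = bact ns ot s v) :
    u = v := by
  induction u generalizing s v with
  | nil =>
    cases v with
    | nil => rfl
    | cons y v => simp [bact] at h
  | cons x u ih =>
    cases v with
    | nil => simp [bact] at h
    | cons y v =>
      simp only [bact, List.cons.injEq] at h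
      have hxy := (hot s).1 h.1
      subst hxy
      rw [ih _ _ h.2]

include hot in
theorem bact_surj (s : Fin q) (v : List (Fin n)) : ∃ u, bact ns ot s u = v := by
  induction v generalizing s with
  | nil => exact ⟨[], rfl⟩
  | cons y v ih =>
    obtain ⟨x, hx⟩ := (hot s).2 y
    obtain ⟨u, hu⟩ := ih (ns s x)
    exact ⟨x :: u, by simp [bact, hx, hu]⟩

/-- the permutation of the words given by a base state -/
noncomputable def bp (s : Fin q) : Equiv.Perm (List (Fin n)) :=
  Equiv.ofBijective (bact ns ot s) ⟨fun _ _ h => bact_inj ns ot hot s _ _ h,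
    bact_surj ns ot hot s⟩

theorem bp_apply (s : Fin q) (u : List (Fin n)) : bp ns ot hot s u = bact ns ot s u := rfl

theorem bp_nil (s : Fin q) : bp ns ot hot s [] = [] := rfl

theorem bp_cons (s : Fin q) (x : Fin n) (u : List (Fin n)) :
    bp ns ot hot s (x :: u) = ot s x :: bp ns ot hot (ns s x) u := rfl

theorem prod_nil' (w : List (Fin q)) : (w.map (bp ns ot hot)).prod [] = [] := by
  induction w with
  | nil => rfl
  | cons s w ih =>
    rw [List.map_cons, List.prod_cons, Equiv.Perm.mul_apply, ih, bp_nil]

theorem prod_cons' (w : List (Fin q)) (x : Fin n) (u : List (Fin n)) :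
    (w.map (bp ns ot hot)).prod (x :: u) =
      (wstep ns ot w x).2 :: ((wstep ns ot w x).1.map (bp ns ot hot)).prod u := by
  induction w with
  | nil => rfl
  | cons s w ih =>
    rw [List.map_cons, List.prod_cons, Equiv.Perm.mul_apply, ih, bp_cons, wstep_cons]
    rfl

include hcl in
theorem act_table (L : List (List (Fin c))) (u : List (Fin n)) (j : ℕ)
    (hj : j < (allStates cl L).length) : act (table ns ot cl L) j (u.map Fin.val) =
      ((((allStates cl L)[j]).map (bp ns ot hot)).prod u).map Fin.val := by
  induction u generalizing j with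
  | nil => rw [prod_nil']; rfl
  | cons x u ih =>
    rw [prod_cons', List.map_cons, List.map_cons]
    have hm := wstep_mem ns ot cl hcl L _ (List.getElem_mem hj) x
    have hlt := List.idxOf_lt_length_iff.2 hm
    have he : (allStates cl L)[(allStates cl L).idxOf (wstep ns ot (allStates cl L)[j] x).1] =
        (wstep ns ot (allStates cl L)[j] x).1 := List.getElem_idxOf hlt
    unfold act
    rw [table_lam ns ot cl L j hj, table_tau ns ot cl L j hj, ih _ hlt, he]

include hcl in
theorem G_table (L : List (List (Fin c))) : G (table ns ot cl L) =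
    Subgroup.closure (Set.range fun w : {w // w ∈ allStates cl L} =>
      (w.1.map (bp ns ot hot)).prod) := by
  unfold G
  congr 1
  ext g
  constructor
  · rintro ⟨j, hj, hg⟩
    rw [table_len] at hj
    refine ⟨⟨(allStates cl L)[j], List.getElem_mem _⟩, ?_⟩
    apply Equiv.ext
    intro u
    have h1 := (hg u).trans (act_table ns ot cl hcl hot L u j hj)
    exact (List.map_injective_iff.2 Fin.val_injective h1).symm
  · rintro ⟨⟨w, hw⟩, rfl⟩
    have hlt := List.idxOf_lt_length_iff.2 hw
    refine ⟨(allStates cl L).idxOf w, by rwa [table_len], fun u => ?_⟩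
    have h1 := act_table ns ot cl hcl hot L u _ hlt
    rw [List.getElem_idxOf hlt] at h1
    exact h1.symm

end Shapes

end Pool.Agent.U630.IS
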