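import Pool.Agent.U630.IS.Grp
import Pool.Agent.U630.IS.Tab

/-!
# Affine maps act on binary expansions
-/

set_option autoImplicit false

namespace Pool.Agent.U630.IS

/-- pairs of integral vectors -/
abbrev VV : Type := V2 × V2

/-- pairs of affine maps -/
abbrev HH : Type := Af × Af

/-- the action of a pair of affine maps -/
def app2 (h : HH) (z : VV) : VV := (Af.app h.1 z.1, Af.app h.2 z.2)

theorem app2_mul (a b : HH) (z : VV) : app2 (a * b) z = app2 a (app2 b z) := by
  unfold app2
  exact Prod.ext (Af.app_mul _ _ _) (Af.app_mul _ _ _)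

theorem app2_one (z : VV) : app2 1 z = z :=
  Prod.ext (Af.app_one _) (Af.app_one _)

theorem app2_inj {a b : HH} (h : ∀ z, app2 a z = app2 b z) : a = b := by
  apply Prod.ext
  · exact Af.app_inj fun z => congrArg Prod.fst (h (z, 0))
  · exact Af.app_inj fun z => congrArg Prod.snd (h (0, z))

/-! ### digits -/

/-- the type of pairs of digit vectors -/
abbrev LL : Type := (Fin 2 → Bool) × (Fin 2 → Bool)

/-- the numbering of the letters -/
noncomputable def eL : LL ≃ Fin 16 := Fintype.equivFinOfCardEq (by simp)

/-- the vector of the last digits -/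
def par2 (z : V2) : Fin 2 → Bool := fun i => decide (z i % 2 = 1)

/-- the vector with given digits -/
def rep2 (x : Fin 2 → Bool) : V2 := fun i => if x i then 1 else 0

/-- the remaining digits -/
def half2 (z : V2) : V2 := fun i => z i / 2

theorem decomp2 (z : V2) : z = rep2 (par2 z) + (2 : ℤ) • half2 z := by
  funext i
  simp only [rep2, par2, half2, Pi.add_apply, Pi.smul_apply, smul_eq_mul, decide_eq_true_eq]
  split_ifs <;> omega

theorem par2_eq (x : Fin 2 → Bool) (z : V2) : par2 (rep2 x + (2 : ℤ) • z) = x := by
  funext i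
  have h1 : (rep2 x + (2 : ℤ) • z) i = (if x i then 1 else 0) + 2 * z i := by
    simp only [rep2, Pi.add_apply, Pi.smul_apply, smul_eq_mul]
  unfold par2
  rw [h1]
  by_cases h : x i = true
  · rw [if_pos h, h, decide_eq_true_iff]
    omega
  · have h2 : x i = false := by simpa using h
    rw [if_neg h, h2, decide_eq_false_iff_not]
    omega

theorem half2_eq (x : Fin 2 → Bool) (z : V2) : half2 (rep2 x + (2 : ℤ) • z) = z := by
  funext i
  simp only [rep2, half2, Pi.add_apply, Pi.smul_apply, smul_eq_mul]
  rcases h : x i with _ | _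
  · simp
  · simp only [if_true]
    omega

/-- the last digits of a pair -/
noncomputable def par (z : VV) : Fin 16 := eL (par2 z.1, par2 z.2)

/-- the pair with given digits -/
noncomputable def rep (y : Fin 16) : VV := (rep2 (eL.symm y).1, rep2 (eL.symm y).2)

/-- the remaining digits of a pair -/
def half (z : VV) : VV := (half2 z.1, half2 z.2)

theorem decomp (z : VV) : z = rep (par z) + (2 : ℤ) • half z := by
  unfold rep par half
  rw [Equiv.symm_apply_apply]
  exact Prod.ext (decomp2 z.1) (decomp2 z.2)

theorem par_eq (y : Fin 16) (z : VV) : par (rep y + (2 : ℤ) • z) = y := by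
  have h1 : (par2 (rep y + (2 : ℤ) • z).1, par2 (rep y + (2 : ℤ) • z).2) = eL.symm y := by
    apply Prod.ext
    · exact par2_eq _ _
    · exact par2_eq _ _
  unfold par
  rw [h1, Equiv.apply_symm_apply]

theorem half_eq (y : Fin 16) (z : VV) : half (rep y + (2 : ℤ) • z) = z :=
  Prod.ext (half2_eq _ _) (half2_eq _ _)

theorem par_rep (y : Fin 16) : par (rep y) = y := by
  have := par_eq y 0
  rwa [smul_zero, add_zero] at this

/-- the first `k` digits -/
noncomputable def dg : ℕ → VV → List (Fin 16)
  | 0, _ => []
  | k + 1, z => par z :: dg k (half z)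

theorem dg_surj (u : List (Fin 16)) : ∃ k z, dg k z = u := by
  induction u with
  | nil => exact ⟨0, 0, rfl⟩
  | cons x u ih =>
    obtain ⟨k, z, rfl⟩ := ih
    refine ⟨k + 1, rep x + (2 : ℤ) • z, ?_⟩
    rw [dg, par_eq, half_eq]

theorem dg_sep (z w : VV) (h : ∀ k, dg k z = dg k w) : z = w := by
  have main : ∀ (N : ℕ) (z w : VV), (∀ k, dg k z = dg k w) →
      (∀ i, |z.1 i - w.1 i| ≤ N) → (∀ i, |z.2 i - w.2 i| ≤ N) → z = w := by
    intro N
    induction N using Nat.strong_induction_on with
    | _ N ih =>
      intro z w h h1 h2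
      rcases Nat.eq_zero_or_pos N with h0 | h0
      · apply Prod.ext
        · funext i
          have := h1 i
          rw [h0] at this
          have := abs_nonpos_iff.1 (by exact_mod_cast this)
          omega
        · funext i
          have := h2 i
          rw [h0] at this
          have := abs_nonpos_iff.1 (by exact_mod_cast this)
          omega
      · have hp : par z = par w := by
          have := h 1
          simpa [dg] using this
        have hh : ∀ k, dg k (half z) = dg k (half w) := by
          intro k
          have := h (k + 1)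
          rw [dg, dg, List.cons.injEq] at this
          exact this.2
        have ez := decomp z
        have ew := decomp w
        rw [hp] at ez
        have k1 : ∀ i, z.1 i - w.1 i = 2 * ((half z).1 i - (half w).1 i) := by
          intro i
          have e1 := congrFun (congrArg Prod.fst ez) i
          have e2 := congrFun (congrArg Prod.fst ew) i
          simp only [Prod.fst_add, Prod.smul_fst, Pi.add_apply, Pi.smul_apply, smul_eq_mul]
            at e1 e2
          linarith
        have k2 : ∀ i, z.2 i - w.2 i = 2 * ((half z).2 i - (half w).2 i) := by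
          intro i
          have e1 := congrFun (congrArg Prod.snd ez) i
          have e2 := congrFun (congrArg Prod.snd ew) i
          simp only [Prod.snd_add, Prod.smul_snd, Pi.add_apply, Pi.smul_apply, smul_eq_mul]
            at e1 e2
          linarith
        have e := ih (N / 2) (Nat.div_lt_self h0 (by norm_num)) (half z) (half w) hh
          (fun i => by
            have a1 := h1 i
            rw [k1 i, abs_mul, abs_two] at a1
            push_cast
            omega)
          (fun i => by
            have a1 := h2 i
            rw [k2 i, abs_mul, abs_two] at a1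
            push_cast
            omega)
        calc z = rep (par w) + (2 : ℤ) • half z := ez
          _ = rep (par w) + (2 : ℤ) • half w := by rw [e]
          _ = w := ew.symm
  obtain ⟨N, hN⟩ : ∃ N : ℕ, (∀ i, |z.1 i - w.1 i| ≤ N) ∧ (∀ i, |z.2 i - w.2 i| ≤ N) := by
    refine ⟨(|z.1 0 - w.1 0| + |z.1 1 - w.1 1| + |z.2 0 - w.2 0| + |z.2 1 - w.2 1|).toNat, ?_, ?_⟩
    · intro i
      rw [Int.toNat_of_nonneg (by positivity)]
      have a1 := abs_nonneg (z.1 0 - w.1 0)
      have a2 := abs_nonneg (z.1 1 - w.1 1)
      have a3 := abs_nonneg (z.2 0 - w.2 0)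
      have a4 := abs_nonneg (z.2 1 - w.2 1)
      fin_cases i <;> simp only [Fin.zero_eta, Fin.mk_one] <;> linarith
    · intro i
      rw [Int.toNat_of_nonneg (by positivity)]
      have a1 := abs_nonneg (z.1 0 - w.1 0)
      have a2 := abs_nonneg (z.1 1 - w.1 1)
      have a3 := abs_nonneg (z.2 0 - w.2 0)
      have a4 := abs_nonneg (z.2 1 - w.2 1)
      fin_cases i <;> simp only [Fin.zero_eta, Fin.mk_one] <;> linarith
  exact main N z w h hN.1 hN.2

/-! ### one step of an affine map -/

theorem mv_zsmul (A : SL2) (c : ℤ) (z : V2) : mv A (c • z) = c • mv A z := by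
  change A.1.mulVec (c • z) = c • A.1.mulVec z
  rw [Matrix.mulVec_smul]

/-- the section of a pair of affine maps at a letter -/
noncomputable def sec (h : HH) (x : Fin 16) : HH :=
  (⟨h.1.lin, (half (app2 h (rep x))).1⟩, ⟨h.2.lin, (half (app2 h (rep x))).2⟩)

theorem app2_step (h : HH) (x : Fin 16) (z : VV) :
    app2 h (rep x + (2 : ℤ) • z) =
      rep (par (app2 h (rep x))) + (2 : ℤ) • app2 (sec h x) z := by
  have e := decomp (app2 h (rep x))
  have e1 : app2 h (rep x + (2 : ℤ) • z) =
      app2 h (rep x) + (2 : ℤ) • (mv h.1.lin z.1, mv h.2.lin z.2) := by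
    apply Prod.ext
    · simp only [app2, Af.app, Prod.fst_add, Prod.smul_fst, mv_add, mv_zsmul]
      abel
    · simp only [app2, Af.app, Prod.snd_add, Prod.smul_snd, mv_add, mv_zsmul]
      abel
  have e2 : app2 (sec h x) z = (mv h.1.lin z.1, mv h.2.lin z.2) + half (app2 h (rep x)) := rfl
  rw [e1, e2]
  nth_rewrite 1 [e]
  rw [smul_add]
  abel

theorem par_step (h : HH) (z : VV) :
    par (app2 h z) = par (app2 h (rep (par z))) := by
  nth_rewrite 1 [decomp z]
  rw [app2_step, par_eq]

theorem half_step (h : HH) (z : VV) :
    half (app2 h z) = app2 (sec h (par z)) (half z) := by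
  nth_rewrite 1 [decomp z]
  rw [app2_step, half_eq]

theorem out_bij (h : HH) : Function.Bijective fun x => par (app2 h (rep x)) := by
  rw [← Finite.injective_iff_bijective]
  intro x y hxy
  have key : ∀ x, par (app2 h⁻¹ (rep (par (app2 h (rep x))))) = x := by
    intro x
    rw [← par_step, ← app2_mul, inv_mul_cancel, app2_one, par_rep]
  rw [← key x, ← key y]
  exact congrArg (fun t => par (app2 h⁻¹ (rep t))) hxy

/-! ### the relation between affine maps and permutations of words -/

/-- the pairs (affine map, induced permutation of the words) -/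
def Gam : Subgroup (HH × Equiv.Perm (List (Fin 16))) where
  carrier := {g | ∀ k z, g.2 (dg k z) = dg k (app2 g.1 z)}
  mul_mem' := by
    intro a b ha hb k z
    change a.2 (b.2 (dg k z)) = dg k (app2 (a.1 * b.1) z)
    rw [hb, ha, app2_mul]
  one_mem' := by
    intro k z
    change dg k z = dg k (app2 1 z)
    rw [app2_one]
  inv_mem' := by
    intro a ha k z
    change a.2⁻¹ (dg k z) = dg k (app2 a.1⁻¹ z)
    rw [Equiv.Perm.inv_eq_iff_eq, ha, ← app2_mul, mul_inv_cancel, app2_one]

theorem Gam_one (g : HH × Equiv.Perm (List (Fin 16))) (hg : g ∈ Gam) (h : g.1 = 1) : g.2 = 1 := by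
  apply Equiv.ext
  intro u
  obtain ⟨k, z, rfl⟩ := dg_surj u
  rw [hg k z, h, app2_one]
  rfl

theorem Gam_two (g : HH × Equiv.Perm (List (Fin 16))) (hg : g ∈ Gam) (h : g.2 = 1) : g.1 = 1 := by
  apply app2_inj
  intro z
  apply dg_sep
  intro k
  rw [← hg k z, h, app2_one]
  rfl

/-! ### the base automaton -/

section Base

variable {q c : ℕ} (aff : Fin q → HH) (ns : Fin q → Fin 16 → Fin q) (cl : Fin q → Fin c)

/-- the outputs -/
noncomputable def ot (s : Fin q) (x : Fin 16) : Fin 16 := par (app2 (aff s) (rep x))

theorem ot_bij (s : Fin q) : Function.Bijective (ot aff s) := out_bij (aff s)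

variable (hns : ∀ s x, aff (ns s x) = sec (aff s) x)

include hns in
theorem bp_mem (s : Fin q) : (aff s, bp ns (ot aff) (ot_bij aff) s) ∈ Gam := by
  intro k z
  change bp ns (ot aff) (ot_bij aff) s (dg k z) = dg k (app2 (aff s) z)
  induction k generalizing s z with
  | zero => rfl
  | succ k ih =>
    rw [dg, dg, bp_cons, ih, hns, half_step, par_step]
    rfl

include hns in
theorem prod_mem (w : List (Fin q)) :
    ((w.map aff).prod, (w.map (bp ns (ot aff) (ot_bij aff))).prod) ∈ Gam := by
  induction w with
  | nil => exact one_mem _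
  | cons s w ih =>
    have := Gam.mul_mem (bp_mem aff ns hns s) ih
    simpa using this

include hns in
theorem G_iso (hcl : ∀ s x, cl (ns s x) = cl s) (L : List (List (Fin c))) :
    Nonempty (G (table ns (ot aff) cl L) ≃* Subgroup.closure
      (Set.range fun w : {w // w ∈ allStates cl L} => (w.1.map aff).prod)) := by
  rw [G_table ns (ot aff) cl hcl (ot_bij aff) L]
  exact closure_iso Gam Gam_one Gam_two _ _ fun w => prod_mem aff ns hns w.1

end Base

end Pool.Agent.U630.IS
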