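import Mathlib
import Pool.Agent.Helper180.FreeMetric
import Pool.Agent.N765.HY.SL2

/-!
# Fibre products of free groups and affine groups
-/

set_option autoImplicit false

namespace Pool.Agent.U630.IS

/-! ### an isomorphism invariant -/

/-- `Γ` is a product of two commuting noncommutative subgroups. -/
def Splits (Γ : Type) [Group Γ] : Prop :=
  ∃ A B : Subgroup Γ, (∀ a ∈ A, ∀ b ∈ B, a * b = b * a) ∧ (∀ x, ∃ a ∈ A, ∃ b ∈ B, x = a * b) ∧
    (∃ a ∈ A, ∃ a' ∈ A, a * a' ≠ a' * a) ∧ ∃ b ∈ B, ∃ b' ∈ B, b * b' ≠ b' * b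

theorem Splits.congr {Γ Γ' : Type} [Group Γ] [Group Γ'] (e : Γ ≃* Γ') (h : Splits Γ) :
    Splits Γ' := by
  obtain ⟨A, B, h1, h2, ⟨a, ha, a', ha', h3⟩, ⟨b, hb, b', hb', h4⟩⟩ := h
  refine ⟨A.map e.toMonoidHom, B.map e.toMonoidHom, ?_, ?_, ?_, ?_⟩
  · rintro _ ⟨x, hx, rfl⟩ _ ⟨y, hy, rfl⟩
    change e x * e y = e y * e x
    rw [← map_mul, h1 x hx y hy, map_mul]
  · intro x
    obtain ⟨y, hy, z, hz, hyz⟩ := h2 (e.symm x)
    refine ⟨e y, ⟨y, hy, rfl⟩, e z, ⟨z, hz, rfl⟩, ?_⟩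
    rw [← map_mul, ← hyz, e.apply_symm_apply]
  · refine ⟨e a, ⟨a, ha, rfl⟩, e a', ⟨a', ha', rfl⟩, fun h => h3 ?_⟩
    rw [← map_mul, ← map_mul] at h
    exact e.injective h
  · refine ⟨e b, ⟨b, hb, rfl⟩, e b', ⟨b', hb', rfl⟩, fun h => h4 ?_⟩
    rw [← map_mul, ← map_mul] at h
    exact e.injective h

theorem Splits.killed {Γ F : Type} [Group Γ] [Group F]
    (hCT : ∀ h x y : F, h ≠ 1 → x * h = h * x → y * h = h * y → x * y = y * x)
    (hF : ∃ x y : F, x * y ≠ y * x) (φ : Γ →* F) (hs : Function.Surjective φ) {A B : Subgroup Γ}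
    (h1 : ∀ a ∈ A, ∀ b ∈ B, a * b = b * a) (h2 : ∀ x, ∃ a ∈ A, ∃ b ∈ B, x = a * b) :
    (∀ a ∈ A, φ a = 1) ∨ ∀ b ∈ B, φ b = 1 := by
  by_contra hcon
  push Not at hcon
  obtain ⟨⟨a0, ha0, ha0'⟩, b0, hb0, hb0'⟩ := hcon
  have hAB : ∀ a ∈ A, ∀ b ∈ B, φ a * φ b = φ b * φ a := by
    intro a ha b hb
    rw [← map_mul, h1 a ha b hb, map_mul]
  have hB : ∀ b ∈ B, ∀ b' ∈ B, φ b * φ b' = φ b' * φ b := fun b hb b' hb' =>
    hCT (φ a0) _ _ ha0' (hAB a0 ha0 b hb).symm (hAB a0 ha0 b' hb').symm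
  have hA : ∀ a ∈ A, ∀ a' ∈ A, φ a * φ a' = φ a' * φ a := fun a ha a' ha' =>
    hCT (φ b0) _ _ hb0' (hAB a ha b0 hb0) (hAB a' ha' b0 hb0)
  obtain ⟨x, y, hxy⟩ := hF
  apply hxy
  obtain ⟨x, rfl⟩ := hs x
  obtain ⟨y, rfl⟩ := hs y
  obtain ⟨a, ha, b, hb, rfl⟩ := h2 x
  obtain ⟨a', ha', b', hb', rfl⟩ := h2 y
  rw [map_mul, map_mul]
  calc φ a * φ b * (φ a' * φ b') = φ a * (φ b * φ a') * φ b' := by group
    _ = φ a * (φ a' * φ b) * φ b' := by rw [hAB a' ha' b hb]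
    _ = (φ a * φ a') * (φ b * φ b') := by group
    _ = (φ a' * φ a) * (φ b' * φ b) := by rw [hA a ha a' ha', hB b hb b' hb']
    _ = φ a' * (φ a * φ b') * φ b := by group
    _ = φ a' * (φ b' * φ a) * φ b := by rw [hAB a ha b' hb']
    _ = φ a' * φ b' * (φ a * φ b) := by group

theorem Splits.key {Γ F : Type} [Group Γ] [Group F]
    (hCT : ∀ h x y : F, h ≠ 1 → x * h = h * x → y * h = h * y → x * y = y * x)
    (hF : ∃ x y : F, x * y ≠ y * x) (φ1 φ2 : Γ →* F) (s1 : Function.Surjective φ1)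
    (s2 : Function.Surjective φ2)
    (hk : ∀ x y, φ1 x = 1 → φ2 x = 1 → φ1 y = 1 → φ2 y = 1 → x * y = y * x) (hP : Splits Γ) :
    ∀ f, ∃ x, φ1 x = f ∧ φ2 x = 1 := by
  obtain ⟨A, B, h1, h2, ⟨a, ha, a', ha', h3⟩, ⟨b, hb, b', hb', h4⟩⟩ := hP
  intro f
  obtain ⟨x, rfl⟩ := s1 f
  obtain ⟨u, hu, v, hv, rfl⟩ := h2 x
  rcases Splits.killed hCT hF φ1 s1 h1 h2 with hA1 | hB1
  · rcases Splits.killed hCT hF φ2 s2 h1 h2 with hA2 | hB2
    · exact absurd (hk a a' (hA1 a ha) (hA2 a ha) (hA1 a' ha') (hA2 a' ha')) h3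
    · exact ⟨v, by rw [map_mul, hA1 u hu, one_mul], hB2 v hv⟩
  · rcases Splits.killed hCT hF φ2 s2 h1 h2 with hA2 | hB2
    · exact ⟨u, by rw [map_mul, hB1 v hv, mul_one], hA2 u hu⟩
    · exact absurd (hk b b' (hB1 b hb) (hB2 b hb) (hB1 b' hb') (hB2 b' hb')) h4

/-! ### closures of related families -/

theorem closure_iso {H P : Type} [Group H] [Group P] (Γ : Subgroup (H × P))
    (h1 : ∀ g ∈ Γ, g.1 = 1 → g.2 = 1) (h2 : ∀ g ∈ Γ, g.2 = 1 → g.1 = 1) {ι : Type}
    (a : ι → H) (p : ι → P) (hΓ : ∀ i, (a i, p i) ∈ Γ) :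
    Nonempty (Subgroup.closure (Set.range p) ≃* Subgroup.closure (Set.range a)) := by
  set T := Subgroup.closure (Set.range fun i => (a i, p i)) with hT
  have hTΓ : T ≤ Γ := by
    rw [hT, Subgroup.closure_le]
    rintro _ ⟨i, rfl⟩
    exact hΓ i
  have i1 : Function.Injective ((MonoidHom.fst H P).comp T.subtype) := by
    rw [injective_iff_map_eq_one]
    rintro ⟨g, hg⟩ h
    apply Subtype.ext
    exact Prod.ext h (h1 g (hTΓ hg) h)
  have i2 : Function.Injective ((MonoidHom.snd H P).comp T.subtype) := by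
    rw [injective_iff_map_eq_one]
    rintro ⟨g, hg⟩ h
    apply Subtype.ext
    exact Prod.ext (h2 g (hTΓ hg) h) h
  have r1 : ((MonoidHom.fst H P).comp T.subtype).range = Subgroup.closure (Set.range a) := by
    rw [MonoidHom.range_comp, Subgroup.range_subtype, hT, MonoidHom.map_closure, ← Set.range_comp]
    rfl
  have r2 : ((MonoidHom.snd H P).comp T.subtype).range = Subgroup.closure (Set.range p) := by
    rw [MonoidHom.range_comp, Subgroup.range_subtype, hT, MonoidHom.map_closure, ← Set.range_comp]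
    rfl
  exact ⟨(MulEquiv.subgroupCongr r2).symm.trans ((MonoidHom.ofInjective i2).symm.trans
    ((MonoidHom.ofInjective i1).trans (MulEquiv.subgroupCongr r1)))⟩

/-! ### affine maps of the plane -/

open Matrix

/-- `SL(2, ℤ)` -/
abbrev SL2 : Type := SpecialLinearGroup (Fin 2) ℤ

/-- integral vectors -/
abbrev V2 : Type := Fin 2 → ℤ

/-- the action of matrices -/
def mv (A : SL2) (z : V2) : V2 := A.1 *ᵥ z

theorem mv_mul (A B : SL2) (z : V2) : mv (A * B) z = mv A (mv B z) := by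
  change (A.1 * B.1) *ᵥ z = A.1 *ᵥ (B.1 *ᵥ z)
  rw [Matrix.mulVec_mulVec]

theorem mv_one (z : V2) : mv 1 z = z := by
  change (1 : Matrix (Fin 2) (Fin 2) ℤ) *ᵥ z = z
  rw [Matrix.one_mulVec]

theorem mv_add (A : SL2) (z w : V2) : mv A (z + w) = mv A z + mv A w := by
  change A.1 *ᵥ (z + w) = A.1 *ᵥ z + A.1 *ᵥ w
  rw [Matrix.mulVec_add]

theorem mv_zero (A : SL2) : mv A 0 = 0 := by
  change A.1 *ᵥ (0 : V2) = 0
  rw [Matrix.mulVec_zero]

theorem mv_inj {A B : SL2} (h : ∀ z, mv A z = mv B z) : A = B := by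
  apply Subtype.ext
  exact Matrix.ext_of_mulVec_single fun i => h _

/-- affine maps `z ↦ A z + v` with `A` in `SL(2, ℤ)` -/
@[ext] structure Af where
  lin : SL2
  tr : V2

namespace Af

instance : Mul Af := ⟨fun a b => ⟨a.lin * b.lin, a.tr + mv a.lin b.tr⟩⟩
instance : One Af := ⟨⟨1, 0⟩⟩
instance : Inv Af := ⟨fun a => ⟨a.lin⁻¹, -(mv a.lin⁻¹ a.tr)⟩⟩

theorem mul_lin (a b : Af) : (a * b).lin = a.lin * b.lin := rfl
theorem mul_tr (a b : Af) : (a * b).tr = a.tr + mv a.lin b.tr := rfl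
theorem one_lin : (1 : Af).lin = 1 := rfl
theorem one_tr : (1 : Af).tr = 0 := rfl
theorem inv_lin (a : Af) : (a⁻¹).lin = a.lin⁻¹ := rfl
theorem inv_tr (a : Af) : (a⁻¹).tr = -(mv a.lin⁻¹ a.tr) := rfl

instance : Group Af := Group.ofLeftAxioms
  (by
    intro a b c
    ext1
    · simp only [mul_lin, mul_assoc]
    · simp only [mul_tr, mul_lin, mv_mul, mv_add, add_assoc])
  (by
    intro a
    ext1
    · simp only [mul_lin, one_lin, one_mul]
    · simp only [mul_tr, one_lin, one_tr, mv_one, zero_add])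
  (by
    intro a
    ext1
    · simp only [mul_lin, inv_lin, one_lin, inv_mul_cancel]
    · simp only [mul_tr, inv_lin, inv_tr, one_tr, neg_add_cancel])

/-- the linear part -/
def linHom : Af →* SL2 where
  toFun := lin
  map_one' := rfl
  map_mul' _ _ := rfl

/-- the action on vectors -/
def app (a : Af) (z : V2) : V2 := mv a.lin z + a.tr

theorem app_mul (a b : Af) (z : V2) : app (a * b) z = app a (app b z) := by
  unfold app
  rw [mul_lin, mul_tr, mv_mul, mv_add]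
  abel

theorem app_one (z : V2) : app 1 z = z := by
  unfold app
  rw [one_lin, one_tr, mv_one, add_zero]

theorem app_inj {a b : Af} (h : ∀ z, app a z = app b z) : a = b := by
  have h0 : a.tr = b.tr := by
    have := h 0
    simpa [app, mv_zero] using this
  have h1 : ∀ z, mv a.lin z = mv b.lin z := by
    intro z
    have := h z
    unfold app at this
    rw [h0] at this
    exact add_right_cancel this
  ext1
  · exact mv_inj h1
  · exact h0

end Af

/-- pairs of linear parts -/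
def lin2 : Af × Af →* SL2 × SL2 := MonoidHom.prodMap Af.linHom Af.linHom

theorem lin2_apply (h : Af × Af) : lin2 h = (h.1.lin, h.2.lin) := rfl

/-! ### the subgroups -/

open Pool.Agent.N765.HY.SL2 (gens gens_inj)

variable (k : ℕ)

/-- the embedding of the free group in `SL(2, ℤ)` -/
noncomputable def rho : FreeGroup (Fin (k + 1)) →* SL2 := FreeGroup.lift (gens k)

theorem rho_inj (hk : 1 ≤ k) : Function.Injective (rho k) := gens_inj k hk

theorem rho_of (i : Fin (k + 1)) : rho k (FreeGroup.of i) = gens k i := by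
  unfold rho
  rw [FreeGroup.lift_apply_of]

/-- the relators -/
def rel (R : List (List (Fin (k + 1) × Bool))) : Set (FreeGroup (Fin (k + 1))) :=
  {x | ∃ r ∈ R, x = FreeGroup.mk r}

/-- the linear part of the group of the relators `R` -/
noncomputable def DD (R : List (List (Fin (k + 1) × Bool))) : Subgroup (SL2 × SL2) :=
  Subgroup.closure ({p | ∃ i, p = (gens k i, gens k i)} ∪
    {p | ∃ r ∈ R, p = (1, rho k (FreeGroup.mk r))})

theorem diag_mem (R : List (List (Fin (k + 1) × Bool))) (f : FreeGroup (Fin (k + 1))) :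
    (rho k f, rho k f) ∈ DD k R := by
  have h1 : (⊤ : Subgroup (FreeGroup (Fin (k + 1)))) ≤
      (DD k R).comap ((rho k).prod (rho k)) := by
    rw [← FreeGroup.closure_range_of, Subgroup.closure_le]
    rintro _ ⟨i, rfl⟩
    change (rho k _, rho k _) ∈ DD k R
    rw [rho_of]
    exact Subgroup.subset_closure (Or.inl ⟨i, rfl⟩)
  exact h1 (Subgroup.mem_top f)

theorem DD_eq_of_triv (R : List (List (Fin (k + 1) × Bool)))
    (h : Subgroup.normalClosure (rel k R) = ⊤) :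
    DD k R = (rho k).range.prod (rho k).range := by
  apply le_antisymm
  · unfold DD
    rw [Subgroup.closure_le]
    rintro _ (⟨i, rfl⟩ | ⟨r, _, rfl⟩)
    · exact ⟨⟨FreeGroup.of i, rho_of k i⟩, ⟨FreeGroup.of i, rho_of k i⟩⟩
    · exact ⟨⟨1, map_one _⟩, ⟨_, rfl⟩⟩
  · let S : Subgroup (FreeGroup (Fin (k + 1))) :=
      (DD k R).comap ((MonoidHom.inr SL2 SL2).comp (rho k))
    have hmem : ∀ f, f ∈ S ↔ (1, rho k f) ∈ DD k R := fun f => Iff.rfl
    have hn : S.Normal := by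
      refine ⟨fun g hg f => ?_⟩
      rw [hmem] at hg ⊢
      have h1 := (DD k R).mul_mem ((DD k R).mul_mem (diag_mem k R f) hg)
        ((DD k R).inv_mem (diag_mem k R f))
      have h2 : ((rho k f, rho k f) : SL2 × SL2) * (1, rho k g) * (rho k f, rho k f)⁻¹ =
          (1, rho k (f * g * f⁻¹)) := by
        apply Prod.ext
        · simp
        · simp
      rwa [h2] at h1
    have hS : ∀ f, f ∈ S := by
      intro f
      have h1 : Subgroup.normalClosure (rel k R) ≤ S := by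
        apply Subgroup.normalClosure_le_normal
        rintro _ ⟨r, hr, rfl⟩
        exact Subgroup.subset_closure (Or.inr ⟨r, hr, rfl⟩)
      exact h1 (by rw [h]; exact Subgroup.mem_top f)
    rintro ⟨x, y⟩ ⟨⟨a, ha⟩, ⟨b, hb⟩⟩
    have h1 := (DD k R).mul_mem (diag_mem k R a) ((hmem (a⁻¹ * b)).1 (hS _))
    have h2 : ((rho k a, rho k a) : SL2 × SL2) * (1, rho k (a⁻¹ * b)) = (x, y) := by
      apply Prod.ext
      · change rho k a * 1 = x
        rw [mul_one]; exact ha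
      · change rho k a * rho k (a⁻¹ * b) = y
        rw [← map_mul, mul_inv_cancel_left]; exact hb
    rwa [h2] at h1

theorem DD_mem (R : List (List (Fin (k + 1) × Bool))) (p : SL2 × SL2) (hp : p ∈ DD k R) :
    ∃ a b, rho k a = p.1 ∧ rho k b = p.2 ∧ a⁻¹ * b ∈ Subgroup.normalClosure (rel k R) := by
  let q := QuotientGroup.mk' (Subgroup.normalClosure (rel k R))
  let K : Subgroup (FreeGroup (Fin (k + 1)) × FreeGroup (Fin (k + 1))) :=
    MonoidHom.eqLocus (q.comp (MonoidHom.fst _ _)) (q.comp (MonoidHom.snd _ _))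
  have h1 : DD k R ≤ K.map (MonoidHom.prodMap (rho k) (rho k)) := by
    unfold DD
    rw [Subgroup.closure_le]
    rintro _ (⟨i, rfl⟩ | ⟨r, hr, rfl⟩)
    · refine ⟨(FreeGroup.of i, FreeGroup.of i), rfl, ?_⟩
      rw [MonoidHom.prodMap_def]
      change (rho k (FreeGroup.of i), rho k (FreeGroup.of i)) = _
      rw [rho_of]
    · refine ⟨(1, FreeGroup.mk r), ?_, ?_⟩
      · change q 1 = q (FreeGroup.mk r)
        rw [map_one]
        exact ((QuotientGroup.eq_one_iff (N := Subgroup.normalClosure (rel k R)) _).2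
          (Subgroup.subset_normalClosure ⟨r, hr, rfl⟩)).symm
      · rw [MonoidHom.prodMap_def]
        change (rho k 1, rho k (FreeGroup.mk r)) = _
        rw [map_one]
  obtain ⟨⟨a, b⟩, hab, rfl⟩ := h1 hp
  exact ⟨a, b, rfl, rfl, (QuotientGroup.eq (s := Subgroup.normalClosure (rel k R))).1 hab⟩

theorem free_noncomm (hk : 1 ≤ k) :
    ∃ x y : FreeGroup (Fin (k + 1)), x * y ≠ y * x := by
  refine ⟨FreeGroup.of 0, FreeGroup.of (Fin.last k), fun h => ?_⟩
  have h1 := congrArg (FreeGroup.lift fun i : Fin (k + 1) =>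
    if i = 0 then (Equiv.swap 0 1 : Equiv.Perm (Fin 3)) else Equiv.swap 1 2) h
  rw [map_mul, map_mul, FreeGroup.lift_apply_of, FreeGroup.lift_apply_of] at h1
  have h2 : Fin.last k ≠ 0 := by
    intro h
    have := congrArg Fin.val h
    simp at this
    omega
  rw [if_pos rfl, if_neg h2] at h1
  revert h1
  decide

theorem splits_prod (hk : 1 ≤ k) :
    Splits (((rho k).range.prod (rho k).range).comap lin2 : Subgroup (Af × Af)) := by
  obtain ⟨x, y, hxy⟩ := free_noncomm k hk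
  have hxy' : rho k x * rho k y ≠ rho k y * rho k x := by
    rw [← map_mul, ← map_mul]
    exact fun h => hxy (rho_inj k hk h)
  set H : Subgroup (Af × Af) := ((rho k).range.prod (rho k).range).comap lin2 with hH
  have hmem : ∀ h : Af × Af, h ∈ H ↔ (h.1.lin ∈ (rho k).range ∧ h.2.lin ∈ (rho k).range) :=
    fun h => Iff.rfl
  let A : Subgroup H := ((⊤ : Subgroup Af).prod (⊥ : Subgroup Af)).comap H.subtype
  let B : Subgroup H := ((⊥ : Subgroup Af).prod (⊤ : Subgroup Af)).comap H.subtype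
  have hA : ∀ h : H, h ∈ A ↔ h.1.2 = 1 := by
    intro h
    change (h.1.1 ∈ (⊤ : Subgroup Af) ∧ h.1.2 ∈ (⊥ : Subgroup Af)) ↔ _
    rw [Subgroup.mem_bot]
    simp
  have hB : ∀ h : H, h ∈ B ↔ h.1.1 = 1 := by
    intro h
    change (h.1.1 ∈ (⊥ : Subgroup Af) ∧ h.1.2 ∈ (⊤ : Subgroup Af)) ↔ _
    rw [Subgroup.mem_bot]
    simp
  have hone : (1 : SL2) ∈ (rho k).range := one_mem _
  refine ⟨A, B, ?_, ?_, ?_, ?_⟩
  · intro a ha b hb
    rw [hA] at ha
    rw [hB] at hb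
    apply Subtype.ext
    apply Prod.ext
    · change a.1.1 * b.1.1 = b.1.1 * a.1.1
      rw [hb, one_mul, mul_one]
    · change a.1.2 * b.1.2 = b.1.2 * a.1.2
      rw [ha, one_mul, mul_one]
  · intro h
    have hh := (hmem h.1).1 h.2
    refine ⟨⟨(h.1.1, 1), (hmem _).2 ⟨hh.1, hone⟩⟩, (hA _).2 rfl,
      ⟨(1, h.1.2), (hmem _).2 ⟨hone, hh.2⟩⟩, (hB _).2 rfl, ?_⟩
    apply Subtype.ext
    apply Prod.ext
    · change h.1.1 = h.1.1 * 1
      rw [mul_one]
    · change h.1.2 = 1 * h.1.2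
      rw [one_mul]
  · refine ⟨⟨(⟨rho k x, 0⟩, 1), (hmem _).2 ⟨⟨x, rfl⟩, hone⟩⟩, (hA _).2 rfl,
      ⟨(⟨rho k y, 0⟩, 1), (hmem _).2 ⟨⟨y, rfl⟩, hone⟩⟩, (hA _).2 rfl, fun h => hxy' ?_⟩
    exact congrArg (fun g : H => g.1.1.lin) h
  · refine ⟨⟨(1, ⟨rho k x, 0⟩), (hmem _).2 ⟨hone, ⟨x, rfl⟩⟩⟩, (hB _).2 rfl,
      ⟨(1, ⟨rho k y, 0⟩), (hmem _).2 ⟨hone, ⟨y, rfl⟩⟩⟩, (hB _).2 rfl, fun h => hxy' ?_⟩
    exact congrArg (fun g : H => g.1.2.lin) h

theorem triv_of_splits (hk : 1 ≤ k) (R : List (List (Fin (k + 1) × Bool)))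
    (hs : Splits ((DD k R).comap lin2 : Subgroup (Af × Af))) :
    Subgroup.normalClosure (rel k R) = ⊤ := by
  have hinj := rho_inj k hk
  set H : Subgroup (Af × Af) := (DD k R).comap lin2 with hH
  have hmem : ∀ h : Af × Af, h ∈ H ↔ (h.1.lin, h.2.lin) ∈ DD k R := fun h => Iff.rfl
  have hex : ∀ h : H, ∃ a b, rho k a = h.1.1.lin ∧ rho k b = h.1.2.lin ∧
      a⁻¹ * b ∈ Subgroup.normalClosure (rel k R) := fun h => DD_mem k R _ ((hmem h.1).1 h.2)
  choose f1 f2 h1 h2 h3 using hex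
  let φ1 : H →* FreeGroup (Fin (k + 1)) := MonoidHom.mk' f1 (by
    intro x y
    apply hinj
    rw [map_mul, h1, h1, h1]
    rfl)
  let φ2 : H →* FreeGroup (Fin (k + 1)) := MonoidHom.mk' f2 (by
    intro x y
    apply hinj
    rw [map_mul, h2, h2, h2]
    rfl)
  have hsurj : ∀ f, ∃ h : H, φ1 h = f ∧ φ2 h = f := by
    intro f
    refine ⟨⟨(⟨rho k f, 0⟩, ⟨rho k f, 0⟩), (hmem _).2 (diag_mem k R f)⟩, ?_, ?_⟩
    · exact hinj (h1 _)
    · exact hinj (h2 _)
  have key := Splits.key (fun h x y h0 hx hy =>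
    Pool.Agent.Helper180.FreeMetric.comm_trans h0 hx hy) (free_noncomm k hk) φ1 φ2
    (fun f => (hsurj f).imp fun _ h => h.1) (fun f => (hsurj f).imp fun _ h => h.2) (by
      intro x y x1 x2 y1 y2
      have e1 : x.1.1.lin = 1 := by rw [← h1, show f1 x = 1 from x1, map_one]
      have e2 : x.1.2.lin = 1 := by rw [← h2, show f2 x = 1 from x2, map_one]
      have e3 : y.1.1.lin = 1 := by rw [← h1, show f1 y = 1 from y1, map_one]
      have e4 : y.1.2.lin = 1 := by rw [← h2, show f2 y = 1 from y2, map_one]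
      apply Subtype.ext
      apply Prod.ext
      · change x.1.1 * y.1.1 = y.1.1 * x.1.1
        ext1
        · rw [Af.mul_lin, Af.mul_lin, e1, e3]
        · rw [Af.mul_tr, Af.mul_tr, e1, e3, mv_one, mv_one, add_comm]
      · change x.1.2 * y.1.2 = y.1.2 * x.1.2
        ext1
        · rw [Af.mul_lin, Af.mul_lin, e2, e4]
        · rw [Af.mul_tr, Af.mul_tr, e2, e4, mv_one, mv_one, add_comm]) hs
  rw [eq_top_iff]
  intro f _
  obtain ⟨x, hx1, hx2⟩ := key f
  have h4 := h3 x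
  rw [show f1 x = f from hx1, show f2 x = 1 from hx2, mul_one] at h4
  simpa using (Subgroup.inv_mem _ h4)

end Pool.Agent.U630.IS
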