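import Pool.Agent.TH111.J524
import Pool.Agent.TH716.C3.Main
import Pool.Agent.Helper270.WPB

/-!
# Triviality of a finitely presented group with a fixed set of generators is undecidable
-/

set_option autoImplicit false

namespace Pool.Agent.U630.IS

open Pool.Agent.TH716.C3

/-- conversion of words -/
def cv (k : ℕ) (r : List (ℕ × Bool)) : List (Fin (k + 1) × Bool) :=
  r.map fun x => ((List.finRange (k + 1)).getD x.1 0, x.2)

theorem primrec_cv (k : ℕ) : Primrec (cv k) := by
  unfold cv
  refine Primrec.list_map Primrec.id ?_
  refine Primrec.pair ?_ (Primrec.snd.comp Primrec.snd)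
  exact (Primrec.list_getD (0 : Fin (k + 1))).comp (Primrec.const _)
    (Primrec.fst.comp Primrec.snd)

theorem ev_cv {G : Type} [Group G] (k : ℕ) (γ : ℕ → G) (r : List (ℕ × Bool))
    (hr : ∀ x ∈ r, x.1 < k + 1) :
    ev γ r = FreeGroup.lift (fun i : Fin (k + 1) => γ i) (FreeGroup.mk (cv k r)) := by
  rw [FreeGroup.lift_mk]
  unfold ev cv
  rw [List.map_map]
  congr 1
  apply List.map_congr_left
  intro x hx
  have h1 : (List.finRange (k + 1)).getD x.1 0 = ⟨x.1, hr x hx⟩ := by
    rw [List.getD_eq_getElem _ _ (by simpa using hr x hx)]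
    simp
  simp only [Function.comp, h1]
  cases x.2 <;> simp

/-- The words of the `n`-th presentation. -/
def words {m : ℕ} (R : List (List (Fin m × Bool))) (w : List (Fin m × Bool)) :
    List (List (ℕ × Bool)) :=
  (List.range (2 * m + 6)).map (rl (gN m)) ++ rsn R w

theorem words_lt {m : ℕ} (R : List (List (Fin m × Bool))) (w : List (Fin m × Bool)) :
    ∀ r ∈ words R w, ∀ x ∈ r, x.1 < 2 * m + 6 := by
  intro r hr x hx
  unfold words at hr
  rw [List.mem_append, List.mem_map] at hr
  rcases hr with ⟨h, hh, rfl⟩ | hr
  · rw [List.mem_range] at hh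
    have := gN_lt m h hh
    simp only [rl, List.mem_cons, List.not_mem_nil, or_false] at hx
    rcases hx with rfl | rfl | rfl | rfl | rfl <;> assumption
  · exact (rsn_lt R w r hr).2 x hx

/-- Triviality of the group with `k + 1` generators and the relators from a computable sequence of
finite lists is undecidable. -/
theorem triviality : ∃ (k : ℕ) (Rn : ℕ → List (List (Fin (k + 1) × Bool))), 1 ≤ k ∧
    Computable Rn ∧ ¬ ComputablePred (fun n =>
      Subgroup.normalClosure {x | ∃ r ∈ Rn n, x = FreeGroup.mk r} = ⊤) := by
  classical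
  obtain ⟨m, R, W, hW, hund⟩ := Pool.Agent.Helper270.WP.word_problem
  set Rl : List (List (Fin m × Bool)) := R.toList.map FreeGroup.toWord with hRl
  have hR : {x | ∃ r ∈ Rl, x = FreeGroup.mk r} = (R : Set (FreeGroup (Fin m))) := by
    ext x
    constructor
    · rintro ⟨r, hr, rfl⟩
      rw [hRl, List.mem_map] at hr
      obtain ⟨y, hy, rfl⟩ := hr
      rw [FreeGroup.mk_toWord]
      exact Finset.mem_toList.1 hy
    · intro hx
      exact ⟨x.toWord, List.mem_map.2 ⟨x, Finset.mem_toList.2 hx, rfl⟩, FreeGroup.mk_toWord.symm⟩
  refine ⟨2 * m + 5, fun n => (words Rl (W n)).map (cv (2 * m + 5)), by omega, ?_, ?_⟩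
  · have h1 : Primrec fun w : List (Fin m × Bool) => (words Rl w).map (cv (2 * m + 5)) := by
      refine Primrec.list_map ?_ ((primrec_cv _).comp Primrec.snd)
      exact Primrec.list_append.comp (Primrec.const _) (primrec_rsn Rl)
    exact h1.to_comp.comp hW
  · intro hcon
    apply hund
    have key : (fun n => (FreeGroup.mk (W n) ∈
        Subgroup.normalClosure (R : Set (FreeGroup (Fin m))))) = fun n =>
        Subgroup.normalClosure {x | ∃ r ∈ (words Rl (W n)).map (cv (2 * m + 5)),
          x = (FreeGroup.mk r : FreeGroup (Fin (2 * m + 5 + 1)))} = ⊤ := by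
      funext n
      apply propext
      set N := Subgroup.normalClosure {x | ∃ r ∈ (words Rl (W n)).map (cv (2 * m + 5)),
          x = (FreeGroup.mk r : FreeGroup (Fin (2 * m + 5 + 1)))} with hN
      constructor
      · intro h
        let γ : ℕ → FreeGroup (Fin (2 * m + 5 + 1)) ⧸ N := fun i =>
          if hi : i < 2 * m + 5 + 1 then QuotientGroup.mk' N (FreeGroup.of ⟨i, hi⟩) else 1
        have hl : FreeGroup.lift (fun i : Fin (2 * m + 5 + 1) => γ i) = QuotientGroup.mk' N := by
          apply FreeGroup.ext_hom
          intro i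
          rw [FreeGroup.lift_apply_of]
          simp only [γ, i.2, dif_pos]
        have hrel : ∀ r ∈ words Rl (W n), ev γ r = 1 := by
          intro r hr
          rw [ev_cv (2 * m + 5) γ r (fun x hx => words_lt Rl (W n) r hr x hx), hl]
          exact (QuotientGroup.eq_one_iff _).2 (Subgroup.subset_normalClosure
            ⟨_, List.mem_map_of_mem hr, rfl⟩)
        have h1 := Pool.Agent.TH111.J524.s_yes m Rl (W n) (by rw [hR]; exact h) _ γ
          (fun h hh => hrel _ (List.mem_append_left _ (List.mem_map_of_mem
            (List.mem_range.2 hh))))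
          (fun r hr h hh => by
            rw [hrel r (List.mem_append_right _ hr)]
            exact Commute.one_left _)
        have h2 : QuotientGroup.mk' N = 1 := by
          rw [← hl]
          apply FreeGroup.ext_hom
          intro i
          rw [FreeGroup.lift_apply_of, h1 _ (by have := i.2; omega)]
          rfl
        rw [eq_top_iff]
        intro x _
        have h3 := DFunLike.congr_fun h2 x
        exact (QuotientGroup.eq_one_iff _).1 h3
      · intro h
        by_contra hn
        obtain ⟨G, _, γ, h1, h2, h3⟩ := Pool.Agent.TH111.J524.s_no m Rl (W n)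
          (by rw [hR]; exact hn)
        apply h3
        have hle : N ≤ (FreeGroup.lift fun i : Fin (2 * m + 5 + 1) => γ i).ker := by
          apply Subgroup.normalClosure_le_normal
          rintro _ ⟨r, hr, rfl⟩
          rw [List.mem_map] at hr
          obtain ⟨r, hr, rfl⟩ := hr
          change FreeGroup.lift _ _ = 1
          rw [← ev_cv (2 * m + 5) γ r (fun x hx => words_lt Rl (W n) r hr x hx)]
          unfold words at hr
          rw [List.mem_append, List.mem_map] at hr
          rcases hr with ⟨i, hi, rfl⟩ | hr
          · exact h1 i (List.mem_range.1 hi)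
          · exact h2 r hr
        have h4 : (FreeGroup.of (0 : Fin (2 * m + 5 + 1))) ∈ N := by
          rw [h]; exact Subgroup.mem_top _
        have h5 := hle h4
        change FreeGroup.lift _ _ = 1 at h5
        rw [FreeGroup.lift_apply_of] at h5
        exact h5
    rw [key]
    exact hcon

end Pool.Agent.U630.IS
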