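import Pool.Agent.U630.IS.Base
import Pool.Agent.U630.IS.Comp
import Pool.Agent.U630.IS.Triv

/-!
# The isomorphism problem for automaton groups is undecidable
-/

set_option autoImplicit false

namespace Pool.Agent.U630.IS

theorem fixed : ∃ B : Table, Valid B ∧ B.1 = 16 ∧ ¬ ∃ D : Table → Bool, Computable D ∧
    ∀ A : Table, Valid A → A.1 = 16 → (D A = true ↔ Nonempty (G A ≃* G B)) := by
  obtain ⟨k, Rn, hk, hcomp, hund⟩ := triviality
  obtain ⟨q, c, aff, ns, cl, lc, D, E, hns, hcl, hlin, hD, hE, hbox⟩ := exists_base k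
  let T : List (List (Fin (k + 1) × Bool)) → Table := fun R =>
    table ns (ot aff) cl (shapes k D E R)
  have hval : ∀ R, Valid (T R) := fun R => table_valid ns (ot aff) cl hcl (ot_bij aff)
    (by norm_num) _
  have hiso : ∀ R, Nonempty (G (T R) ≃* ((DD k R).comap lin2 : Subgroup HH)) := by
    intro R
    obtain ⟨e⟩ := G_iso aff ns cl hns hcl (shapes k D E R)
    exact ⟨e.trans (MulEquiv.subgroupCongr (HR_eq k aff cl lc D E hlin hD hE hbox R))⟩
  let R0 : List (List (Fin (k + 1) × Bool)) := (List.finRange (k + 1)).map fun i => [(i, true)]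
  have hR0 : Subgroup.normalClosure (rel k R0) = ⊤ := by
    rw [eq_top_iff, ← FreeGroup.closure_range_of, Subgroup.closure_le]
    rintro _ ⟨i, rfl⟩
    exact Subgroup.subset_normalClosure
      ⟨[(i, true)], List.mem_map.2 ⟨i, List.mem_finRange _, rfl⟩, rfl⟩
  have key : ∀ R, Nonempty (G (T R) ≃* G (T R0)) ↔ Subgroup.normalClosure (rel k R) = ⊤ := by
    intro R
    obtain ⟨e⟩ := hiso R
    obtain ⟨e0⟩ := hiso R0
    constructor
    · rintro ⟨f⟩
      have h0 : DD k R0 = (rho k).range.prod (rho k).range := DD_eq_of_triv k R0 hR0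
      have s0 : Splits ((DD k R0).comap lin2 : Subgroup HH) := by
        rw [h0]
        exact splits_prod k hk
      exact triv_of_splits k hk R (s0.congr (e0.symm.trans (f.symm.trans e)))
    · intro h
      have h1 : (DD k R).comap lin2 = (DD k R0).comap lin2 := by
        rw [DD_eq_of_triv k R h, DD_eq_of_triv k R0 hR0]
      exact ⟨e.trans ((MulEquiv.subgroupCongr h1).trans e0.symm)⟩
  refine ⟨T R0, hval R0, rfl, ?_⟩
  rintro ⟨f, hf, hf'⟩
  apply hund
  have hT : Computable T :=
    ((primrec_table ns (ot aff) cl).comp (primrec_shapes k D E)).to_comp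
  exact ComputablePred.computable_iff.2 ⟨fun n => f (T (Rn n)), hf.comp (hT.comp hcomp),
    funext fun n => propext ((key (Rn n)).symm.trans (hf' _ (hval _) rfl).symm)⟩

theorem pairs : ¬ ∃ D : Table × Table → Bool, Computable D ∧
    ∀ A B : Table, Valid A → Valid B → (D (A, B) = true ↔ Nonempty (G A ≃* G B)) := by
  rintro ⟨D, hD, hD'⟩
  obtain ⟨B, hB, _, hB'⟩ := fixed
  exact hB' ⟨fun A => D (A, B), hD.comp (Computable.pair Computable.id (Computable.const B)),
    fun A hA _ => hD' A B hA hB⟩

end Pool.Agent.U630.IS
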